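import Mathlib

set_option autoImplicit false

namespace Pool.Agent.Results.MP_110f0a_gt.KSpaceNotFU

open Filter Topology

/-- `C_p(X, D)` with `D = {0,1}` discrete: the continuous maps `X → Bool`, with the topology
inherited from the product `Bool ^ X` (the subtype topology). -/
abbrev CpD (X : Type) [TopologicalSpace X] : Type := {f : X → Bool // Continuous f}

/-- `Z` is a k-space: a set is closed whenever its trace on every compact set `K` is closed
in `K`. -/
def KSpace (Z : Type) [TopologicalSpace Z] : Prop :=
  ∀ A : Set Z, (∀ K : Set Z, IsCompact K → IsClosed ((↑) ⁻¹' A : Set K)) → IsClosed A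

/-- `X` is zero-dimensional: the clopen sets form a base. -/
def ZeroDim (X : Type) [TopologicalSpace X] : Prop :=
  TopologicalSpace.IsTopologicalBasis {s : Set X | IsClopen s}

/-- There is a zero-dimensional Tychonoff space `X` such that `C_p(X, D)` is a k-space but is not
Fréchet–Urysohn (indeed `C_p(X, D)` is compact and not even countably tight). -/
theorem result : ∃ (X : Type) (_ : TopologicalSpace X), T35Space X ∧ ZeroDim X ∧
    KSpace (CpD X) ∧ ¬ FrechetUrysohnSpace (CpD X) := by
  let t : TopologicalSpace ℝ := ⊥
  refine ⟨ℝ, t, ?_⟩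
  letI : TopologicalSpace ℝ := t
  haveI hd : DiscreteTopology ℝ := ⟨rfl⟩
  have hcont : ∀ f : ℝ → Bool, Continuous f := fun f => continuous_of_discreteTopology
  haveI : CompactSpace (CpD ℝ) := by
    have h1 : Set.range (Subtype.val : CpD ℝ → (ℝ → Bool)) = Set.univ := by
      rw [Subtype.range_val]; ext f; exact ⟨fun _ => trivial, fun _ => hcont f⟩
    have h2 : IsCompact (Set.range (Subtype.val : CpD ℝ → (ℝ → Bool))) := by
      rw [h1]; exact isCompact_univ
    rw [← Set.image_univ] at h2
    exact ⟨Topology.IsInducing.subtypeVal.isCompact_iff.mpr h2⟩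
  refine ⟨inferInstance, ?_, ?_, ?_⟩
  · -- zero-dimensional
    refine TopologicalSpace.isTopologicalBasis_of_isOpen_of_nhds (fun s hs => hs.isOpen) ?_
    intro x u hx hu
    exact ⟨u, ⟨isClosed_discrete u, hu⟩, hx, subset_rfl⟩
  · -- k-space
    intro A hA
    have h1 := hA Set.univ isCompact_univ
    have h2 := (Topology.IsClosedEmbedding.mk (Topology.IsEmbedding.subtypeVal)
      (by rw [Subtype.range_val]; exact isClosed_univ)).isClosedMap _ h1
    rw [Subtype.image_preimage_coe] at h2
    simpa using h2
  · -- not Frechet-Urysohn: the finitely supported functions accumulate at the constant 1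
    intro hFU
    let A : Set (CpD ℝ) := {f | {x | f.1 x = true}.Finite}
    let one : CpD ℝ := ⟨fun _ => true, hcont _⟩
    have hcl : one ∈ closure A := by
      rw [mem_closure_iff_nhds]
      intro U hU
      rw [nhds_subtype, mem_comap] at hU
      obtain ⟨V, hV, hVU⟩ := hU
      rw [nhds_pi, Filter.mem_pi] at hV
      obtain ⟨I, hI, s, hs, hsub⟩ := hV
      classical
      refine ⟨⟨fun x => decide (x ∈ I), hcont _⟩, hVU (hsub ?_), ?_⟩
      · intro x hx
        have h1 : decide (x ∈ I) = true := by simpa using hx
        change decide (x ∈ I) ∈ s x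
        rw [h1]
        exact mem_of_mem_nhds (hs x)
      · change {x | decide (x ∈ I) = true}.Finite
        simpa using hI
    rw [mem_closure_iff_seq_limit] at hcl
    obtain ⟨a, ha, hlim⟩ := hcl
    have hcount : (⋃ n, {x | (a n).1 x = true}).Countable :=
      Set.countable_iUnion (fun n => (ha n).countable)
    have huniv : (⋃ n, {x | (a n).1 x = true}) = (Set.univ : Set ℝ) := by
      rw [Set.eq_univ_iff_forall]
      intro x
      have h1 : Tendsto (fun n => (a n).1 x) atTop (𝓝 true) := by
        have h2 : Tendsto (fun n => (a n).1) atTop (𝓝 one.1) :=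
          (continuous_subtype_val.tendsto one).comp hlim
        exact (tendsto_pi_nhds.mp h2) x
      rw [nhds_discrete, tendsto_pure] at h1
      obtain ⟨n, hn⟩ := h1.exists
      exact Set.mem_iUnion.mpr ⟨n, hn⟩
    rw [huniv] at hcount
    exact Cardinal.not_countable_real hcount

end Pool.Agent.Results.MP_110f0a_gt.KSpaceNotFU
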